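import Pool.Agent.Q20.Qs.Fin

/-!
# The graphs whose direct square has no quantum symmetry
-/

set_option autoImplicit false

namespace Pool.Agent.Results.MP_a717c1_al.DirectSquareAllGraphs

/-- The direct product of two graphs. -/
def directProduct {V W : Type} (X : SimpleGraph V) (Y : SimpleGraph W) : SimpleGraph (V × W) where
  Adj a b := X.Adj a.1 b.1 ∧ Y.Adj a.2 b.2
  symm := ⟨fun _ _ h => ⟨h.1.symm, h.2.symm⟩⟩
  loopless := ⟨fun a h => X.loopless.irrefl a.1 h.1⟩

/-- A magic unitary over a unital C*-algebra: the entries are self-adjoint projections and all rows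
and columns have sum one. -/
structure IsMagic {V : Type} [Fintype V] {A : Type} [CStarAlgebra A] (u : Matrix V V A) : Prop where
  star_eq : ∀ x y, star (u x y) = u x y
  mul_self : ∀ x y, u x y * u x y = u x y
  row_sum : ∀ x, ∑ y, u x y = 1
  col_sum : ∀ y, ∑ x, u x y = 1

open Classical in
/-- A finite graph has no quantum symmetry if the quantum automorphism algebra is commutative, that
is, if the entries of every magic unitary (over every unital C*-algebra) that commutes with the
adjacency matrix commute with each other. -/
def NoQuantumSymmetry {V : Type} [Fintype V] (G : SimpleGraph V) : Prop :=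
  ∀ (A : Type) [CStarAlgebra A] (u : Matrix V V A), IsMagic u →
    u * G.adjMatrix A = G.adjMatrix A * u → ∀ x y z w, u x y * u z w = u z w * u x y

theorem noqs_iff {V : Type} [Fintype V] (G : SimpleGraph V) :
    NoQuantumSymmetry G ↔ Pool.Agent.H741.QS.NoQuantumSymmetry G := by
  constructor
  · intro h A _ u hu hc
    exact h A u ⟨hu.star_eq, hu.mul_self, hu.row_sum, hu.col_sum⟩ hc
  · intro h A _ u hu hc
    exact h A u ⟨hu.star_eq, hu.mul_self, hu.row_sum, hu.col_sum⟩ hc

/-- The direct square of a finite nonempty graph `X` has no quantum symmetry if and only if `X` has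
just one vertex, or `X` is connected and not bipartite, distinct vertices of `X` have distinct
neighbourhoods, and `X` has no quantum symmetry. -/
theorem result (V : Type) [Fintype V] [Nonempty V] (X : SimpleGraph V) :
    NoQuantumSymmetry (directProduct X X) ↔
      (Fintype.card V = 1 ∨
        (X.Connected ∧ ¬ X.Colorable 2 ∧ (∀ a b, (∀ c, X.Adj a c ↔ X.Adj b c) → a = b) ∧
          NoQuantumSymmetry X)) := by
  rw [noqs_iff, noqs_iff]
  exact Pool.Agent.Q20.Qs.final V X

end Pool.Agent.Results.MP_a717c1_al.DirectSquareAllGraphs
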